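import Pool.Agent.MNT.StmtsT

set_option autoImplicit false

/-!
# MNT, row LGU: clusters which are not grounded
-/

namespace Pool.Agent.MNT.H18

open scoped Classical

theorem lgu (lks : LksStmt) : LguStmt := by
  intro P _ _ Λ R c hc hG
  have h1 : ¬ ∃ p ∈ R, p ∈ c ∧ ∀ d ∈ Λ.V, p ∈ d → c ⊆ d := fun h => hG (Or.inl h)
  have h2 : ¬ ∃ s, Λ.Kid c s ∧ Odd (s ∩ R).card := fun h => hG (Or.inr h)
  have hE : ∀ s, Λ.Kid c s → Even (s ∩ R).card := fun s hs =>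
    Nat.not_odd_iff_even.1 fun ho => h2 ⟨s, hs, ho⟩
  have hK : ∀ p ∈ c ∩ R, ∃ s, Λ.Kid c s ∧ p ∈ s := by
    intro p hp
    rw [Finset.mem_inter] at hp
    have h3 : ∃ d ∈ Λ.V, p ∈ d ∧ ¬ c ⊆ d := by
      by_contra h4
      apply h1
      refine ⟨p, hp.2, hp.1, fun d hd hpd => ?_⟩
      by_contra h5
      exact h4 ⟨d, hd, hpd, h5⟩
    obtain ⟨d₀, hd₀, hpd₀, hcd₀⟩ := h3
    obtain ⟨s, hs, hmax⟩ := Finset.exists_max_image (Λ.V.filter fun d => p ∈ d ∧ ¬ c ⊆ d)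
      Finset.card ⟨d₀, Finset.mem_filter.2 ⟨hd₀, hpd₀, hcd₀⟩⟩
    rw [Finset.mem_filter] at hs
    obtain ⟨hsV, hps, hcs⟩ := hs
    have hsc : s ⊆ c := by
      rcases Λ.lam c hc s hsV with h | h | h
      · exact absurd h hcs
      · exact h
      · exact absurd hps (Finset.disjoint_left.1 h hp.1)
    refine ⟨s, ⟨hsV, ⟨hsc, hcs⟩, fun d' hd' hsd' => ?_⟩, hps⟩
    by_contra h6
    have h7 := hmax d' (Finset.mem_filter.2 ⟨hd', hsd'.1 hps, h6⟩)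
    exact absurd (Finset.card_lt_card hsd') (not_lt.2 h7)
  refine ⟨hK, hE, ?_⟩
  have h8 := (lks P Λ R c hc).2 hK
  rw [← h8]
  exact Finset.even_sum _ fun s hs => hE s (Finset.mem_filter.1 hs).2

end Pool.Agent.MNT.H18
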